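import Pool.Agent.V1143.TD.Final

/-!
# The `p`-adic Tate conjecture for totally degenerate abelian varieties is false

The abelian varieties over a finite extension `K` of `ℚ_p` with split totally multiplicative reduction
are the quotients `A = (𝔾_m)^g / Λ` by a lattice of periods with a Riemann form (Tate, Morikawa,
Mumford, Raynaud, Gerritzen); they are the objects of `TotDegAV K`. For such `A`:

* `A.Points F` is the group `A(F) = (F^×)^g / Λ`, with the action `A.galois F σ` of the automorphisms
  `σ` of `F` over `K`;
* `A.endRing` (as a type `A.EndA`) is the ring `End(A)` of the endomorphisms of `A` over `K`: the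
  integral matrices, that is the endomorphisms of the torus, which map `Λ` to itself;
* `A.V p` is `V_p(A) = ℚ_p ⊗ T_p(A)`, formed with the algebraic closure of `K`, `A.rho p` is the action
  of the Galois group on it, and `A.galoisEnd p` (as a type `A.GalEnd p`) is the algebra
  `End_{G_K}(V_p(A))`;
* `A.tateMap p : ℚ_p ⊗ End(A) → End_{G_K}(V_p(A))` is the natural homomorphism of algebras.

The counterexample is the quotient of `(𝔾_m)^2` over `ℚ_p` with the periods
`Q i j = p ^ δ i j * (1 + p) ^ L i j`, where `L = (0, 1; 1, z)` with `z ∈ ℤ_p` irrational, and with the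
principal polarization `P = 1`. Here `End(A) = ℤ`, while the matrix `L` acts on `V_p(A)` and commutes
with the Galois group.
-/

set_option autoImplicit false

namespace Pool.Agent.Results.MP_b74fdd_ag.LocalTateFails

open Pool.Agent.V1143.TD

/-- For every prime number `p` there is an abelian surface `A` over `ℚ_p`, with split totally
multiplicative reduction, such that the map `End(A) ⊗ ℚ_p → End_{G_K}(V_p(A))`, for `K = ℚ_p`, is not
surjective. -/
theorem result (p : ℕ) [Fact p.Prime] :
    ∃ A : TotDegAV ℚ_[p], A.g = 2 ∧ ¬ Function.Surjective (A.tateMap p) := by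
  obtain ⟨z, hz⟩ := exists_irrational p
  exact ⟨av p (matL p z) (matL_symm p z), rfl, not_surjective hz⟩

end Pool.Agent.Results.MP_b74fdd_ag.LocalTateFails
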